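import Pool.Agent.H81.MI.Top

/-!
Groups of germs of real-analytic diffeomorphisms: non-metabelian groups satisfy no mixed identity.
-/

set_option autoImplicit false

open Filter Topology

namespace Pool.Agent.Results.MP_9b11f2_al.NoMixedIdentity

/-- Let `Γ` be a group which acts faithfully by germs at `0` of real-analytic functions `h g` with
`h g 0 = 0` and positive derivative at `0`. Let `P` be a subgroup of `Γ` which is not metabelian and
`W` a finite set of nontrivial elements of the free product `Γ * ⟨x⟩`. Then there is `x` in the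
derived subgroup of `P` whose substitution into each `w ∈ W` gives a value different from `1`. -/
theorem result (Γ : Type) [Group Γ] (h : Γ → ℝ → ℝ)
    (h1 : ∀ g, AnalyticAt ℝ (h g) 0 ∧ h g 0 = 0 ∧ 0 < deriv (h g) 0)
    (h2 : ∀ g g', h (g * g') =ᶠ[𝓝 0] h g ∘ h g')
    (h3 : ∀ g, h g =ᶠ[𝓝 0] id → g = 1)
    (P : Subgroup Γ) (hP : ⁅⁅P, P⁆, ⁅P, P⁆⁆ ≠ ⊥)
    (W : Finset (Monoid.Coprod Γ (Multiplicative ℤ))) (hW : ∀ w ∈ W, w ≠ 1) :
    ∃ x ∈ ⁅P, P⁆, ∀ w ∈ W,
      Monoid.Coprod.lift (MonoidHom.id Γ) (zpowersHom Γ x) w ≠ 1 :=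
  Pool.Agent.H81.MI.top_germ h h1 h2 h3 P hP W hW

end Pool.Agent.Results.MP_9b11f2_al.NoMixedIdentity
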